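import Pool.Agent.W282.RW.Stm

/-!
Project RW (helper282): the core of the contradiction.
-/

open Function

namespace Pool.Agent.W282.RW

open Pool.Agent.W466.ZP

theorem v_one (V : ValuationSubring ℂ) {p : ℕ} (hp : p.Prime) (hV : (p : ℂ) ∈ V.nonunits) {n : ℕ}
    (h : ¬ p ∣ n) : V.valuation (n : ℂ) = 1 := by
  have hvp : V.valuation (p : ℂ) < 1 := by rwa [ValuationSubring.mem_nonunits_iff] at hV
  have hle : ∀ z : ℤ, V.valuation (z : ℂ) ≤ 1 := int_le_one V
  refine le_antisymm (by simp) ?_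
  by_contra hlt
  push Not at hlt
  have hcop : Nat.Coprime n p := ((Nat.Prime.coprime_iff_not_dvd hp).2 h).symm
  have h1 := Nat.gcd_eq_gcd_ab n p
  rw [hcop] at h1
  have h2 : (1 : ℂ) = (n : ℂ) * (n.gcdA p : ℂ) + (p : ℂ) * (n.gcdB p : ℂ) := by
    exact_mod_cast congrArg (Int.cast : ℤ → ℂ) h1
  have h3 : V.valuation (1 : ℂ) < 1 := by
    rw [h2]
    refine Valuation.map_add_lt _ ?_ ?_
    · rw [map_mul]
      exact (mul_le_of_le_one_right' (hle _)).trans_lt hlt
    · rw [map_mul]
      exact (mul_le_of_le_one_right' (hle _)).trans_lt hvp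
  rw [map_one] at h3
  exact lt_irrefl _ h3

theorem dsc_close (V : ValuationSubring ℂ) {A a B b : ℂ} (hA : A ∈ V) (ha : a ∈ V) (hB : B ∈ V)
    (hb : b ∈ V) {ε : V.ValueGroup} (h1 : V.valuation (A - a) ≤ ε) (h2 : V.valuation (B - b) ≤ ε) :
    V.valuation ((4 * A ^ 3 + 27 * B ^ 2) - (4 * a ^ 3 + 27 * b ^ 2)) ≤ ε := by
  have h3 : (4 * A ^ 3 + 27 * B ^ 2) - (4 * a ^ 3 + 27 * b ^ 2) =
      (A - a) * (((4 : ℕ) : ℂ) * (A ^ 2 + A * a + a ^ 2)) + (B - b) * (((27 : ℕ) : ℂ) * (B + b)) := by
    push_cast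
    ring
  rw [h3]
  refine (Valuation.map_add _ _ _).trans (max_le ?_ ?_)
  · rw [map_mul]
    refine (mul_le_of_le_one_right' ?_).trans h1
    rw [ValuationSubring.valuation_le_one_iff]
    exact mul_mem (natCast_mem V 4) (add_mem (add_mem (pow_mem hA 2) (mul_mem hA ha)) (pow_mem ha 2))
  · rw [map_mul]
    refine (mul_le_of_le_one_right' ?_).trans h2
    rw [ValuationSubring.valuation_le_one_iff]
    exact mul_mem (natCast_mem V 27) (add_mem hB hb)

variable {σ : Type} [Fintype σ] [DecidableEq σ]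

/-- The congruences modulo `p ^ K` attached to a labelling `lam`, a choice `s` of linear forms
and `a`. -/
structure CongW (n k m : ℕ) (e : Fin n → ℕ) (K p : ℕ) (lam : Fin n → Option (Fin k))
    (s : Fin (m + 1) → σ → ℤ) (a : Fin n → Fin (m + 1)) (A : ∀ i, Sym σ (4 * e i) → ℤ)
    (B : ∀ i, Sym σ (6 * e i) → ℤ) : Prop where
  /-- elements that are not the first of their class -/
  relA : ∀ i, (lam i = none ∨ ∃ i' < i, lam i' = lam i) →
    ∀ u, (p : ℤ) ^ K ∣ A i u - (-3) * pw _ (s (a i)) u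
  relB0 : ∀ i, (lam i = none ∨ ∃ i' < i, lam i' = lam i) →
    ∀ u, (p : ℤ) ∣ B i u - 2 * pw _ (s (a i)) u
  relB : ∀ i i', lam i ≠ none → lam i' = lam i → i < i' → (∀ l, i < l → l < i' → lam l ≠ lam i) →
    (∃ l < i, lam l = lam i) →
    ∀ u, (p : ℤ) ^ K ∣ B i u - (2 * pw _ (s (a i)) u + p * pw _ (s (a i')) u)
  rootA : ∀ i, lam i ≠ none → (∀ i' < i, lam i' ≠ lam i) → ∀ u, (p : ℤ) ^ K ∣ A i u
  rootB : ∀ i i', lam i ≠ none → lam i' = lam i → i < i' → (∀ l, i < l → l < i' → lam l ≠ lam i) →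
    (∀ l < i, lam l ≠ lam i) → ∀ u, (p : ℤ) ^ K ∣ B i u - pw _ (s (a i')) u

theorem ev_mem {d : ℕ} (V : ValuationSubring ℂ) {y : σ → ℂ} (hy : ∀ j, y j ∈ V)
    (c : Sym σ d → ℤ) : ev c y ∈ V := by
  rw [ev]
  refine sum_mem fun e _ => mul_mem (intCast_mem V _) ?_
  rw [← ValuationSubring.valuation_le_one_iff]
  exact prod_le_one V _ hy

theorem ev_add {d : ℕ} (c c' : Sym σ d → ℤ) (y : σ → ℂ) :
    ev (fun e => c e + c' e) y = ev c y + ev c' y := by
  rw [ev, ev, ev, ← Finset.sum_add_distrib]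
  refine Finset.sum_congr rfl fun e _ => ?_
  push_cast
  ring

/-- The core: no point of the variety with the sign pattern `lam`. -/
theorem core {n k m K p : ℕ} {e : Fin n → ℕ} (he : ∀ i, 0 < e i) (hp : p.Prime) (hp3 : 3 < p)
    (hK : ∀ i, 2 * e i * (n + 1) ≤ K) (lam : Fin n → Option (Fin k))
    (s : Fin (m + 1) → σ → ℤ) (a : Fin n → Fin (m + 1))
    (ha : ∀ b, ∃ i, (lam i = none ∨ ∃ i' < i, lam i' = lam i) ∧ a i = b)
    (A : ∀ i, Sym σ (4 * e i) → ℤ) (B : ∀ i, Sym σ (6 * e i) → ℤ)
    (hC : CongW n k m e K p lam s a A B)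
    (V : ValuationSubring ℂ) (hV : (p : ℂ) ∈ V.nonunits) (y : σ → ℂ) (hy : ∀ j, y j ∈ V)
    (hunit : ∃ b, V.valuation (∑ j, (s b j : ℂ) * y j) = 1) (x : Fin n → ℂ)
    (hx : ∀ i, dsc (A i) (B i) y * x i = 6912 * ev (A i) y ^ 3)
    (h1 : ∀ i, lam i = none → x i ∈ V)
    (h2 : ∀ i i', lam i ≠ none → lam i' = lam i → x i ∈ V → x i' ∈ V) : False := by
  classical
  set v := V.valuation with hv
  have hvp : v (p : ℂ) < 1 := by
    rwa [ValuationSubring.mem_nonunits_iff] at hV
  have hvp0 : v (p : ℂ) ≠ 0 := (Valuation.ne_zero_iff _).2 (by exact_mod_cast hp.ne_zero)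
  have hpos : 0 < v (p : ℂ) := zero_lt_iff.2 hvp0
  -- constants
  have hnd : ∀ q : ℕ, q ≠ 0 → (∀ r : ℕ, r.Prime → r ∣ q → r ≤ 3) → v (q : ℂ) = 1 := by
    intro q hq h
    refine v_one V hp hV fun hd => ?_
    have := h p hp hd
    omega
  have hc23 : ∀ i j : ℕ, ∀ r : ℕ, r.Prime → r ∣ 2 ^ i * 3 ^ j → r ≤ 3 := by
    intro i j r hr hd
    rcases (Nat.Prime.dvd_mul hr).1 hd with h | h
    · have := (Nat.prime_dvd_prime_iff_eq hr Nat.prime_two).1 (hr.dvd_of_dvd_pow h)
      omega
    · have := (Nat.prime_dvd_prime_iff_eq hr Nat.prime_three).1 (hr.dvd_of_dvd_pow h)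
      omega
  have v6912 : v (6912 : ℂ) = 1 := by
    have := hnd 6912 (by norm_num) (by
      have h := hc23 8 3
      norm_num at h
      exact h)
    exact_mod_cast this
  have v27 : v (27 : ℂ) = 1 := by
    have := hnd 27 (by norm_num) (by
      have h := hc23 0 3
      norm_num at h
      exact h)
    exact_mod_cast this
  have v3 : v (3 : ℂ) = 1 := by
    have := hnd 3 (by norm_num) (by
      have h := hc23 0 1
      norm_num at h
      exact h)
    exact_mod_cast this
  set u : Fin n → ℂ := fun i => ∑ j, (s (a i) j : ℂ) * y j with hu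
  have hpw : ∀ i d, ev (pw d (s (a i))) y = u i ^ d := fun i d => ev_pw _ _
  have huV : ∀ i, u i ∈ V := fun i => sum_mem fun j _ => mul_mem (intCast_mem V _) (hy j)
  have hu1 : ∀ i, v (u i) ≤ 1 := fun i => (ValuationSubring.valuation_le_one_iff _ _).2 (huV i)
  have hcast : ∀ L : ℕ, v (((p : ℤ) ^ L : ℤ) : ℂ) = v (p : ℂ) ^ L := by
    intro L
    push_cast
    rw [map_pow]
  have hanti : ∀ {i j : ℕ}, i ≤ j → v (p : ℂ) ^ j ≤ v (p : ℂ) ^ i := fun h =>
    pow_le_pow_right_of_le_one' hvp.le h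
  have hAV : ∀ i, ev (A i) y ∈ V := fun i => ev_mem V hy _
  have hBV : ∀ i, ev (B i) y ∈ V := fun i => ev_mem V hy _
  have hn0 : ∀ i : Fin n, 0 < K := fun i => by
    have h3 := hK i
    have h4 := he i
    have h5 : 0 < 2 * e i * (n + 1) := by positivity
    omega
  -- approximation of the forms `A i`
  have hAc : ∀ i, (lam i = none ∨ ∃ i' < i, lam i' = lam i) →
      v (ev (A i) y - (-3) * u i ^ (4 * e i)) ≤ v (p : ℂ) ^ K := by
    intro i hi
    have h3 := ev_congr V hy ((p : ℤ) ^ K) (c' := fun u => (-3) * pw (4 * e i) (s (a i)) u)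
      (hC.relA i hi)
    rw [hcast, ev_zsmul, hpw] at h3
    push_cast at h3
    exact h3
  -- all relation elements with integral coordinate
  have hint : ∀ i, (lam i = none ∨ ∃ i' < i, lam i' = lam i) → x i ∈ V → v (u i) < 1 := by
    intro i hi hxi
    have hvx : v (x i) ≤ 1 := (ValuationSubring.valuation_le_one_iff _ _).2 hxi
    by_contra hge
    push Not at hge
    have hui : v (u i) = 1 := le_antisymm (hu1 i) hge
    have hA1 : v (ev (A i) y - (-3) * u i ^ (4 * e i)) ≤ v (p : ℂ) := by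
      refine (hAc i hi).trans ?_
      have := hanti (hn0 i : 1 ≤ K)
      rwa [pow_one] at this
    have hB1 : v (ev (B i) y - 2 * u i ^ (6 * e i)) ≤ v (p : ℂ) := by
      have h3 := ev_congr V hy (p : ℤ) (c' := fun u => 2 * pw (6 * e i) (s (a i)) u)
        (hC.relB0 i hi)
      rw [ev_zsmul, hpw] at h3
      push_cast at h3
      exact h3
    have hA2 : v (ev (A i) y) = 1 := by
      have h3 : ev (A i) y = (ev (A i) y - (-3) * u i ^ (4 * e i)) + (-3) * u i ^ (4 * e i) := by
        ring
      have h4 : v ((-3) * u i ^ (4 * e i)) = 1 := by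
        rw [map_mul, map_pow, hui, one_pow, mul_one, Valuation.map_neg, v3]
      rw [h3, Valuation.map_add_eq_of_lt_right, h4]
      rw [h4]
      exact hA1.trans_lt hvp
    have hD : v (dsc (A i) (B i) y) ≤ v (p : ℂ) := by
      have h3 := dsc_close V (hAV i) (a := (-3) * u i ^ (4 * e i))
        (mul_mem (neg_mem (by simp)) (pow_mem (huV i) _)) (hBV i)
        (b := 2 * u i ^ (6 * e i)) (mul_mem (by simp) (pow_mem (huV i) _))
        hA1 hB1
      have h4 : 4 * ((-3) * u i ^ (4 * e i)) ^ 3 + 27 * (2 * u i ^ (6 * e i)) ^ 2 = 0 := by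
        have h5 : (u i ^ (4 * e i)) ^ 3 = u i ^ (12 * e i) := by
          rw [← pow_mul]
          congr 1
          ring
        have h6 : (u i ^ (6 * e i)) ^ 2 = u i ^ (12 * e i) := by
          rw [← pow_mul]
          congr 1
          ring
        rw [mul_pow, mul_pow, h5, h6]
        ring
      rw [h4, sub_zero] at h3
      exact h3
    have h5 := congrArg v (hx i)
    rw [map_mul, map_mul, map_pow, hA2, v6912, one_pow, mul_one] at h5
    have h6 : v (dsc (A i) (B i) y) * v (x i) ≤ v (p : ℂ) := (mul_le_of_le_one_right' hvx).trans hD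
    rw [h5] at h6
    exact absurd h6 (not_le.2 hvp)
  -- nonintegral coordinates
  have hdle : ∀ i, x i ∉ V → v (dsc (A i) (B i) y) ≤ v (ev (A i) y) ^ 3 := by
    intro i hxi
    have hvx' : 1 ≤ v (x i) := by
      by_contra h
      rw [not_le] at h
      exact hxi ((ValuationSubring.valuation_le_one_iff _ _).1 h.le)
    calc v (dsc (A i) (B i) y) ≤ v (dsc (A i) (B i) y) * v (x i) := le_mul_of_one_le_right' hvx'
      _ = v (ev (A i) y) ^ 3 := by rw [← map_mul, hx i, map_mul, map_pow, v6912, one_mul]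
  -- relation elements with non-integral coordinate
  have hnon : ∀ N : ℕ, ∀ i : Fin n, (i : ℕ) = N → lam i ≠ none → (∃ i' < i, lam i' = lam i) →
      x i ∉ V → v (u i) ^ 6 ≤ v (p : ℂ) ^ (n + 1 - (i : ℕ)) := by
    intro N
    induction N using Nat.strong_induction_on with
    | _ N ih =>
    intro i hiN hli hprev hxi
    obtain ⟨i0, hi0, hl0⟩ := hprev
    -- the previous element of the class
    set S : Finset (Fin n) := Finset.univ.filter (fun l => l < i ∧ lam l = lam i) with hS
    have hne : S.Nonempty := ⟨i0, by simp [hS, hi0, hl0]⟩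
    set i' := S.max' hne with hi'
    have hmem : i' ∈ S := Finset.max'_mem _ _
    rw [hS, Finset.mem_filter] at hmem
    obtain ⟨-, hlt, hlam⟩ := hmem
    have hbetween : ∀ l, i' < l → l < i → lam l ≠ lam i' := by
      intro l hl1 hl2 hl3
      have hlS : l ∈ S := by
        rw [hS, Finset.mem_filter]
        exact ⟨Finset.mem_univ _, hl2, hl3.trans hlam⟩
      exact absurd (Finset.le_max' S l hlS) (not_le.2 hl1)
    have hli' : lam i' ≠ none := by rw [hlam]; exact hli
    have hxi' : x i' ∉ V := fun h => hxi (h2 i' i hli' hlam.symm h)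
    have hlt' : (i' : ℕ) < (i : ℕ) := hlt
    have hin : (i : ℕ) < n := i.2
    have hD := hdle i' hxi'
    have hepos := he i'
    by_cases hroot : ∃ l < i', lam l = lam i'
    · have h3 := ih i' (by omega) i' rfl hli' hroot hxi'
      -- sizes
      have hk' : n + 1 - (i' : ℕ) ≤ n + 1 := Nat.sub_le _ _
      set κ := n + 1 - (i' : ℕ) with hκ
      have hKκ : 2 * e i' * κ ≤ K := (Nat.mul_le_mul_left _ hk').trans (hK i')
      have hU : v (u i' ^ (6 * e i')) ≤ v (p : ℂ) ^ (e i' * κ) := by
        rw [map_pow, pow_mul, mul_comm (e i') κ, pow_mul]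
        exact pow_le_pow_left' h3 _
      have hA0 : v (ev (A i') y) ^ 3 ≤ v (p : ℂ) ^ (2 * e i' * κ) := by
        have h4 : v (ev (A i') y) ≤ max (v (u i') ^ (4 * e i')) (v (p : ℂ) ^ K) := by
          have h5 : ev (A i') y = (ev (A i') y - (-3) * u i' ^ (4 * e i')) +
              (-3) * u i' ^ (4 * e i') := by ring
          rw [h5]
          refine (Valuation.map_add _ _ _).trans (max_le ?_ ?_)
          · exact (hAc i' (Or.inr hroot)).trans (le_max_right _ _)
          · rw [map_mul, Valuation.map_neg, v3, one_mul, map_pow]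
            exact le_max_left _ _
        rcases le_max_iff.1 h4 with h5 | h5
        · calc v (ev (A i') y) ^ 3 ≤ (v (u i') ^ (4 * e i')) ^ 3 := pow_le_pow_left' h5 _
            _ = (v (u i') ^ 6) ^ (2 * e i') := by
              rw [← pow_mul, ← pow_mul]
              congr 1
              ring
            _ ≤ (v (p : ℂ) ^ κ) ^ (2 * e i') := pow_le_pow_left' h3 _
            _ = _ := by
              rw [← pow_mul]
              congr 1
              ring
        · calc v (ev (A i') y) ^ 3 ≤ (v (p : ℂ) ^ K) ^ 3 := pow_le_pow_left' h5 _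
            _ = v (p : ℂ) ^ (K * 3) := by rw [← pow_mul]
            _ ≤ _ := hanti (by omega)
      have hB0 : v (ev (B i') y - (2 * u i' ^ (6 * e i') + p * u i ^ (6 * e i'))) ≤
          v (p : ℂ) ^ K := by
        have h7 := ev_congr V hy ((p : ℤ) ^ K)
          (hC.relB i' i hli' hlam.symm hlt hbetween hroot)
        rw [hcast, ev_add, ev_zsmul, ev_zsmul, hpw, hpw] at h7
        push_cast at h7
        exact h7
      have hpV : (p : ℂ) ∈ V := natCast_mem V p
      have h8 := dsc_close V (hAV i') (a := (-3) * u i' ^ (4 * e i'))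
        (mul_mem (neg_mem (by simp)) (pow_mem (huV i') _)) (hBV i')
        (b := 2 * u i' ^ (6 * e i') + p * u i ^ (6 * e i'))
        (add_mem (mul_mem (by simp) (pow_mem (huV i') _))
          (mul_mem hpV (pow_mem (huV i) _)))
        (hAc i' (Or.inr hroot)) hB0
      have h9 : 4 * ((-3) * u i' ^ (4 * e i')) ^ 3 +
          27 * (2 * u i' ^ (6 * e i') + p * u i ^ (6 * e i')) ^ 2 =
          27 * ((p * u i ^ (6 * e i')) * (((4 : ℕ) : ℂ) * u i' ^ (6 * e i') +
            p * u i ^ (6 * e i'))) := by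
        have h5 : (u i' ^ (4 * e i')) ^ 3 = (u i' ^ (6 * e i')) ^ 2 := by
          rw [← pow_mul, ← pow_mul]
          congr 1
          ring
        rw [mul_pow, h5]
        push_cast
        ring
      rw [h9] at h8
      set W : ℂ := p * u i ^ (6 * e i') with hW
      set U : ℂ := u i' ^ (6 * e i') with hUdef
      have h10 : v (W * (((4 : ℕ) : ℂ) * U + W)) ≤ v (p : ℂ) ^ (2 * e i' * κ) := by
        have h11 : v (27 * (W * (((4 : ℕ) : ℂ) * U + W))) ≤ v (p : ℂ) ^ (2 * e i' * κ) := by
          have h12 : 27 * (W * (((4 : ℕ) : ℂ) * U + W)) = dsc (A i') (B i') y -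
            ((4 * ev (A i') y ^ 3 + 27 * ev (B i') y ^ 2) -
              27 * (W * (((4 : ℕ) : ℂ) * U + W))) := by
            rw [dsc]
            ring
          rw [h12]
          exact (Valuation.map_sub _ _ _).trans (max_le (hD.trans hA0) (h8.trans (hanti hKκ)))
        rwa [map_mul, v27, one_mul] at h11
      have h13 : v W ≤ v (p : ℂ) ^ (e i' * κ) := by
        by_contra hgt
        push Not at hgt
        have h14 : v (((4 : ℕ) : ℂ) * U) < v W := by
          rw [map_mul]
          refine (mul_le_of_le_one_left' ?_).trans_lt (hU.trans_lt hgt)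
          exact (ValuationSubring.valuation_le_one_iff _ _).2 (natCast_mem V 4)
        have h15 : v (((4 : ℕ) : ℂ) * U + W) = v W := Valuation.map_add_eq_of_lt_right _ h14
        rw [map_mul, h15] at h10
        have h16 : v (p : ℂ) ^ (2 * e i' * κ) = v (p : ℂ) ^ (e i' * κ) * v (p : ℂ) ^ (e i' * κ) := by
          rw [← pow_add]
          congr 1
          ring
        rw [h16] at h10
        exact absurd h10 (not_le.2 (mul_lt_mul'' hgt hgt zero_le zero_le))
      rw [hW, map_mul, map_pow] at h13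
      have h17 : e i' * (κ - 1) + 1 ≤ e i' * κ := by
        obtain ⟨κ', hκ'⟩ : ∃ κ', κ = κ' + 1 := ⟨κ - 1, by omega⟩
        rw [hκ', Nat.add_sub_cancel, Nat.mul_add, mul_one]
        omega
      have h18 : v (u i) ^ (6 * e i') ≤ v (p : ℂ) ^ (e i' * (κ - 1)) := by
        have h19 : v (p : ℂ) * v (u i) ^ (6 * e i') ≤ v (p : ℂ) * v (p : ℂ) ^ (e i' * (κ - 1)) := by
          refine h13.trans ?_
          rw [← pow_succ']
          exact hanti h17
        exact le_of_mul_le_mul_left h19 hpos
      rw [pow_mul, mul_comm (e i') (κ - 1), pow_mul] at h18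
      have h20 := (pow_le_pow_iff_left₀ zero_le zero_le hepos.ne').1 h18
      exact h20.trans (hanti (by omega))
    · have hroot' : ∀ l < i', lam l ≠ lam i' := by
        intro l hl hl2
        exact hroot ⟨l, hl, hl2⟩
      have h5 : v (ev (A i') y) ≤ v (p : ℂ) ^ K := by
        have := ev_dvd V hy ((p : ℤ) ^ K) (hC.rootA i' hli' hroot')
        rwa [hcast] at this
      have h7 := ev_congr V hy _ (hC.rootB i' i hli' hlam.symm hlt hbetween hroot')
      rw [hcast, hpw] at h7
      have h8 : v (ev (B i') y) ^ 2 ≤ (v (p : ℂ) ^ K) ^ 2 := by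
        have h9 : v (27 * ev (B i') y ^ 2) ≤ (v (p : ℂ) ^ K) ^ 2 := by
          have h10 : 27 * ev (B i') y ^ 2 = dsc (A i') (B i') y -
              ((4 : ℕ) : ℂ) * ev (A i') y ^ 3 := by
            rw [dsc]
            push_cast
            ring
          have h11 : v (ev (A i') y) ^ 3 ≤ (v (p : ℂ) ^ K) ^ 2 := by
            calc v (ev (A i') y) ^ 3 ≤ (v (p : ℂ) ^ K) ^ 3 := pow_le_pow_left' h5 _
              _ ≤ _ := by
                rw [← pow_mul, ← pow_mul]
                exact hanti (by omega)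
          rw [h10]
          refine (Valuation.map_sub _ _ _).trans (max_le (hD.trans h11) ?_)
          rw [map_mul, map_pow]
          exact (mul_le_of_le_one_left' ((ValuationSubring.valuation_le_one_iff _ _).2
            (natCast_mem V 4))).trans h11
        rwa [map_mul, v27, one_mul, map_pow] at h9
      have h12 := (pow_le_pow_iff_left₀ zero_le zero_le two_ne_zero).1 h8
      have h13 : v (u i) ^ (6 * e i') ≤ v (p : ℂ) ^ (e i' * (n + 1)) := by
        have h9 : u i ^ (6 * e i') = ev (B i') y - (ev (B i') y - u i ^ (6 * e i')) := by ring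
        rw [← map_pow, h9]
        have h14 : e i' * (n + 1) ≤ K := by
          have := hK i'
          rw [mul_assoc] at this
          omega
        exact (Valuation.map_sub _ _ _).trans
          (max_le (h12.trans (hanti h14)) (h7.trans (hanti h14)))
      rw [pow_mul, mul_comm (e i') (n + 1), pow_mul] at h13
      have h20 := (pow_le_pow_iff_left₀ zero_le zero_le hepos.ne').1 h13
      exact h20.trans (hanti (by omega))
  -- conclusion
  obtain ⟨b, hb⟩ := hunit
  obtain ⟨i, hi, hab⟩ := ha b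
  have hui : v (u i) = 1 := by
    rw [hu]
    simp only [hab]
    exact hb
  by_cases hxi : x i ∈ V
  · exact absurd hui (hint i hi hxi).ne
  · have hln : lam i ≠ none := fun h => hxi (h1 i h)
    have h3 := hnon i i rfl hln (hi.resolve_left hln) hxi
    rw [hui, one_pow] at h3
    have h4 : v (p : ℂ) ^ (n + 1 - (i : ℕ)) ≤ v (p : ℂ) := by
      have := hanti (show 1 ≤ n + 1 - (i : ℕ) by have := i.2; omega)
      rwa [pow_one] at this
    exact absurd (h3.trans h4) (not_le.2 hvp)

end Pool.Agent.W282.RW
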