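import Pool.Agent.W282.RW.Core

/-!
Project RW (helper282): the criterion, the congruence classes, and the main theorem.
-/

open Function MvPolynomial H294ZP

namespace Pool.Agent.W282.RW

open Pool.Agent.W466.ZP

section

variable {σ : Type} [Fintype σ] [DecidableEq σ]

theorem dsc_smul {e : ℕ} (A : Sym σ (4 * e) → ℤ) (B : Sym σ (6 * e) → ℤ) (c : ℂ) (y : σ → ℂ) :
    dsc A B (c • y) = c ^ (12 * e) * dsc A B y := by
  rw [dsc, dsc, ev_smul, ev_smul]
  have h1 : c ^ (12 * e) = (c ^ (4 * e)) ^ 3 := by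
    rw [← pow_mul]
    congr 1
    ring
  have h2 : c ^ (12 * e) = (c ^ (6 * e)) ^ 2 := by
    rw [← pow_mul]
    congr 1
    ring
  have h3 : 4 * (c ^ (4 * e) * ev A y) ^ 3 + 27 * (c ^ (6 * e) * ev B y) ^ 2 =
      (c ^ (4 * e)) ^ 3 * (4 * ev A y ^ 3) + (c ^ (6 * e)) ^ 2 * (27 * ev B y ^ 2) := by ring
  rw [h3, ← h1, ← h2]
  ring

/-- The criterion: no atypical intersections. -/
theorem criterionW {n m K : ℕ} (hmn : m < n) {e : Fin n → ℕ} (he : ∀ i, 0 < e i)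
    (hK : ∀ i, 2 * e i * (n + 1) ≤ K) (Y : Set (σ → ℂ)) (s : Fin (m + 1) → σ → ℤ) (D : ℕ)
    (hgood : ∀ p : ℕ, p.Prime → ¬ p ∣ D → ∀ V : ValuationSubring ℂ,
      (p : ℂ) ∈ V.nonunits → ∀ y : σ → ℂ, y ≠ 0 → y ∈ Y →
        ∃ c : ℂ, c ≠ 0 ∧ (∀ j, (c • y) j ∈ V) ∧ c • y ∈ Y ∧
          ∃ b, V.valuation (∑ j, (s b j : ℂ) * (c • y) j) = 1)
    (a : (Fin n → Option (Fin (n - m - 1))) → Fin n → Fin (m + 1))
    (ha : ∀ lam, ∀ b, ∃ i, (lam i = none ∨ ∃ i' < i, lam i' = lam i) ∧ a lam i = b)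
    (A : ∀ i, Sym σ (4 * e i) → ℤ) (B : ∀ i, Sym σ (6 * e i) → ℤ)
    (hC : ∀ lam, ∃ p : ℕ, p.Prime ∧ 3 < p ∧ ¬ p ∣ D ∧
      CongW n (n - m - 1) m e K p lam s (a lam) A B)
    (r : ℕ) (Z : SpecialDatum n r) (x : Fin n → ℂ) (hx : x ∈ Z.locus) (y : σ → ℂ) (hy : y ≠ 0)
    (hyG : y ∈ Y) (hxy : ∀ i, dsc (A i) (B i) y * x i = 6912 * ev (A i) y ^ 3)
    (S : Finset (Fin n)) (hS : AlgebraicIndependent ℚ (fun i : S => x i)) :
    S.card + (n - m) ≤ r := by
  by_contra hcon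
  obtain ⟨lam, hlam⟩ := pattern (k := n - m - 1) Z x hx S hS (by omega)
  obtain ⟨p, hp, hp3, hpD, hCp⟩ := hC lam
  obtain ⟨V, hVp, hVx⟩ := exists_val (fun i : S => x i) hS hp
  obtain ⟨c, hc, hcy, hcG, hunit⟩ := hgood p hp hpD V hVp y hy hyG
  obtain ⟨h1, h2⟩ := hlam V hVx
  refine core he hp hp3 hK lam s (a lam) (ha lam) A B hCp V hVp (c • y) hcy hunit x ?_ h1 h2
  intro i
  rw [dsc_smul, ev_smul, mul_assoc, hxy]
  have h3 : c ^ (12 * e i) = (c ^ (4 * e i)) ^ 3 := by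
    rw [← pow_mul]
    congr 1
    ring
  rw [h3]
  ring

open Classical in
/-- target for the `A i` -/
noncomputable def tA {n k m : ℕ} (e : Fin n → ℕ) (s : Fin (m + 1) → σ → ℤ)
    (lam : Fin n → Option (Fin k)) (a : Fin n → Fin (m + 1)) (i : Fin n)
    (u : Sym σ (4 * e i)) : ℤ :=
  if lam i = none ∨ ∃ i' < i, lam i' = lam i then (-3) * pw _ (s (a i)) u else 0

open Classical in
/-- target for the `B i` -/
noncomputable def tB {n k m : ℕ} (p : ℕ) (e : Fin n → ℕ) (s : Fin (m + 1) → σ → ℤ)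
    (lam : Fin n → Option (Fin k)) (a : Fin n → Fin (m + 1)) (i : Fin n)
    (u : Sym σ (6 * e i)) : ℤ :=
  if lam i = none ∨ ∃ i' < i, lam i' = lam i then
    2 * pw _ (s (a i)) u + p * pw _ (s (nb lam a i)) u
  else pw _ (s (nb lam a i)) u

omit [Fintype σ] in
theorem congW_of_target {n k m K p : ℕ} (hK : 0 < K) {e : Fin n → ℕ} (s : Fin (m + 1) → σ → ℤ)
    (lam : Fin n → Option (Fin k)) (a : Fin n → Fin (m + 1))
    (A : ∀ i, Sym σ (4 * e i) → ℤ) (B : ∀ i, Sym σ (6 * e i) → ℤ)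
    (hA : ∀ i u, (p : ℤ) ^ K ∣ A i u - tA e s lam a i u)
    (hB : ∀ i u, (p : ℤ) ^ K ∣ B i u - tB p e s lam a i u) :
    CongW n k m e K p lam s a A B where
  relA := by
    intro i hi u
    have := hA i u
    rwa [tA, if_pos hi] at this
  relB0 := by
    intro i hi u
    have h1 := hB i u
    rw [tB, if_pos hi] at h1
    have h2 : (p : ℤ) ∣ (p : ℤ) ^ K := dvd_pow_self _ hK.ne'
    have h3 := dvd_add (h2.trans h1) (Dvd.intro (pw (6 * e i) (s (nb lam a i)) u) rfl)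
    have h4 : B i u - (2 * pw (6 * e i) (s (a i)) u + p * pw (6 * e i) (s (nb lam a i)) u) +
        p * pw (6 * e i) (s (nb lam a i)) u = B i u - 2 * pw (6 * e i) (s (a i)) u := by ring
    rwa [h4] at h3
  relB := by
    intro i i' hli hl' hlt hb hroot u
    have h1 := hB i u
    rw [tB, if_pos (Or.inr hroot), nb_eq lam a i i' hl' hlt hb] at h1
    exact h1
  rootA := by
    intro i hli hroot u
    have hn : ¬ (lam i = none ∨ ∃ i' < i, lam i' = lam i) := by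
      rintro (h | ⟨l, hl, hl2⟩)
      · exact hli h
      · exact hroot l hl hl2
    have h1 := hA i u
    rw [tA, if_neg hn, sub_zero] at h1
    exact h1
  rootB := by
    intro i i' hli hl' hlt hb hroot u
    have hn : ¬ (lam i = none ∨ ∃ i' < i, lam i' = lam i) := by
      rintro (h | ⟨l, hl, hl2⟩)
      · exact hli h
      · exact hroot l hl hl2
    have h1 := hB i u
    rw [tB, if_neg hn, nb_eq lam a i i' hl' hlt hb] at h1
    exact h1

end

/-- The counting of the vectors with bounded entries in a residue class. -/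
def S_CNT2 : Prop := ∀ (E : Type) [Fintype E] (Q : ℕ) (_ : 0 < Q) (R : E → ℤ) (H : E → ℕ)
  (_ : ∀ e, Q ≤ H e), (1 / (2 * (Q : ℝ))) ^ Fintype.card E *
    ({F : E → ℤ | ∀ e, |F e| ≤ H e}.ncard : ℝ) ≤
      ({F : E → ℤ | (∀ e, |F e| ≤ H e) ∧ ∀ e, (Q : ℤ) ∣ F e - R e}.ncard : ℝ)

/-- The coefficients of `n` Weierstrass equations. -/
abbrev Fam (N : ℕ) {n : ℕ} (e : Fin n → ℕ) : Type :=
  (∀ i, Sym (Fin (N + 1)) (4 * e i) → ℤ) × (∀ i, Sym (Fin (N + 1)) (6 * e i) → ℤ)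

/-- The index set of the coefficients. -/
abbrev Idx (N : ℕ) {n : ℕ} (e : Fin n → ℕ) : Type :=
  (Σ i, Sym (Fin (N + 1)) (4 * e i)) ⊕ (Σ i, Sym (Fin (N + 1)) (6 * e i))

/-- The coefficients of `n` Weierstrass equations as one vector. -/
def famEquiv (N : ℕ) {n : ℕ} (e : Fin n → ℕ) : (Idx N e → ℤ) ≃ Fam N e where
  toFun F := (fun i u => F (Sum.inl ⟨i, u⟩), fun i u => F (Sum.inr ⟨i, u⟩))
  invFun f := Sum.elim (fun u => f.1 u.1 u.2) (fun u => f.2 u.1 u.2)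
  left_inv F := by
    funext u
    rcases u with u | u <;> rfl
  right_inv f := rfl

theorem box_finite' (N : ℕ) {n : ℕ} (e : Fin n → ℕ) (h h' : Fin n → ℕ) :
    {f : Fam N e | (∀ i u, |f.1 i u| ≤ h i) ∧ ∀ i u, |f.2 i u| ≤ h' i}.Finite := by
  let H : Idx N e → ℕ := Sum.elim (fun u => h u.1) (fun u => h' u.1)
  have hfin0 : {F : Idx N e → ℤ | ∀ u, |F u| ≤ H u}.Finite :=
    (Set.Finite.pi' (fun u => Set.finite_Icc (-(H u : ℤ)) (H u))).subset
      (fun F hF u => abs_le.1 (hF u))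
  refine (hfin0.image (famEquiv N e)).subset ?_
  rintro f ⟨hf1, hf2⟩
  refine ⟨(famEquiv N e).symm f, ?_, (famEquiv N e).apply_symm_apply f⟩
  rintro (⟨i, u⟩ | ⟨i, u⟩)
  · exact hf1 i u
  · exact hf2 i u

/-- The main theorem. -/
theorem main (hDOM : S_DOM) (hCNT : S_CNT2) {κ : Type*} (N n m : ℕ) (e : Fin n → ℕ)
    (he : ∀ i, 0 < e i) (hmn : m < n)
    (G : κ → MvPolynomial (Fin (N + 1)) ℂ) (hhom : ∀ k, ∃ e, (G k).IsHomogeneous e)
    (halg : ∀ k s, IsAlgebraic ℚ ((G k).coeff s))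
    (hdim1 : ∃ t : Fin (m + 1) → Fin (N + 1) → ℂ, ∀ y : Fin (N + 1) → ℂ,
      (∀ k, eval y (G k) = 0) → (∀ b, ∑ j, t b j * y j = 0) → y = 0)
    (hdim2 : ∀ t : Fin m → Fin (N + 1) → ℂ, ∃ y : Fin (N + 1) → ℂ, y ≠ 0 ∧
      (∀ k, eval y (G k) = 0) ∧ ∀ i, ∑ j, t i j * y j = 0) :
    ∃ δ : ℝ, 0 < δ ∧ ∃ H₀ : ℕ, ∀ h h' : Fin n → ℕ, (∀ i, H₀ ≤ h i ∧ H₀ ≤ h' i) →
      δ * ({f : Fam N e | (∀ i u, |f.1 i u| ≤ h i) ∧ ∀ i u, |f.2 i u| ≤ h' i}.ncard : ℝ) ≤
        ({f : Fam N e | ((∀ i u, |f.1 i u| ≤ h i) ∧ ∀ i u, |f.2 i u| ≤ h' i) ∧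
          (∃ y : Fin (N + 1) → ℂ, y ≠ 0 ∧ (∀ k, eval y (G k) = 0) ∧
            (∀ i, dsc (f.1 i) (f.2 i) y ≠ 0) ∧ AlgebraicIndependent ℚ (fun i : Fin m =>
              6912 * ev (f.1 (Fin.castLE hmn.le i)) y ^ 3 /
                dsc (f.1 (Fin.castLE hmn.le i)) (f.2 (Fin.castLE hmn.le i)) y)) ∧
          (∀ (r : ℕ) (Z : SpecialDatum n r) (x : Fin n → ℂ), x ∈ Z.locus →
            ∀ y : Fin (N + 1) → ℂ, y ≠ 0 → (∀ k, eval y (G k) = 0) →
            (∀ i, dsc (f.1 i) (f.2 i) y * x i = 6912 * ev (f.1 i) y ^ 3) →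
            ∀ S : Finset (Fin n), AlgebraicIndependent ℚ (fun i : S => x i) →
              S.card + (n - m) ≤ r)}.ncard : ℝ) := by
  classical
  obtain ⟨t, ht⟩ := hdim1
  obtain ⟨s, hs⟩ := int_forms G hhom t ht
  obtain ⟨D, hD, hgood⟩ := good_prime G halg hhom s hs
  let Y : Set (Fin (N + 1) → ℂ) := {y | ∀ k, eval y (G k) = 0}
  let Λ := Fin n → Option (Fin (n - m - 1))
  have ha : ∀ lam : Λ, ∃ a : Fin n → Fin (m + 1),
      ∀ b, ∃ i, (lam i = none ∨ ∃ i' < i, lam i' = lam i) ∧ a i = b :=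
    fun lam => exists_surj (by omega) lam
  choose a ha using ha
  let K : ℕ := 2 * (∑ i, e i) * (n + 1) + 1
  have hK : ∀ i, 2 * e i * (n + 1) ≤ K := by
    intro i
    have h1 : e i ≤ ∑ i, e i := Finset.single_le_sum (f := e) (fun _ _ => Nat.zero_le _)
      (Finset.mem_univ i)
    have h2 : 2 * e i * (n + 1) ≤ 2 * (∑ i, e i) * (n + 1) :=
      Nat.mul_le_mul_right _ (Nat.mul_le_mul_left _ h1)
    exact h2.trans (Nat.le_succ _)
  have hK0 : 0 < K := Nat.succ_pos _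
  let ι := Option Λ
  let pr : ι → ℕ := fun i => Nat.nth Nat.Prime (D + 3 + Fintype.equivFin ι i)
  have hprime : ∀ i, (pr i).Prime := fun i => Nat.prime_nth_prime _
  have hprge : ∀ i, D + 3 + 2 ≤ pr i := by
    intro i
    have h1 : D + 3 + (Fintype.equivFin ι i : ℕ) + 2 ≤ pr i := Nat.add_two_le_nth_prime _
    omega
  have hpr3 : ∀ i, 3 < pr i := fun i => by have := hprge i; omega
  have hprD : ∀ i, ¬ pr i ∣ D := by
    intro i h
    have h2 := Nat.le_of_dvd hD h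
    have := hprge i
    omega
  have hprinj : Injective pr := by
    intro i i' h
    have h1 := Nat.nth_injective Nat.infinite_setOfPred_prime h
    exact (Fintype.equivFin ι).injective (Fin.ext (by omega))
  let q : ι → ℕ := fun i => pr i ^ K
  have hqpos : ∀ i, 0 < q i := fun i => pow_pos (hprime i).pos _
  have hqcop : Pairwise (Nat.Coprime on q) := by
    intro i i' hne
    exact Nat.Coprime.pow _ _ ((Nat.coprime_primes (hprime i) (hprime i')).2
      (fun h => hne (hprinj h)))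
  let T : ι → Idx N e → ℤ := fun c x =>
    match c, x with
    | none, Sum.inl ⟨i, u⟩ => if h : (i : ℕ) < m then pw _ (s (Fin.succ ⟨i, h⟩)) u else 0
    | none, Sum.inr ⟨_, u⟩ => pw _ (s 0) u
    | some lam, Sum.inl ⟨i, u⟩ => tA e s lam (a lam) i u
    | some lam, Sum.inr ⟨i, u⟩ => tB (pr (some lam)) e s lam (a lam) i u
  have hR : ∀ x, ∃ r : ℤ, ∀ c, (q c : ℤ) ∣ r - T c x := fun x =>
    crt q hqpos hqcop (fun c => T c x)
  choose R hR using hR
  set Q : ℕ := ∏ i, q i with hQdef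
  have hQ : 0 < Q := Finset.prod_pos (fun i _ => hqpos i)
  refine ⟨(1 / (2 * (Q : ℝ))) ^ Fintype.card (Idx N e), by positivity, Q, ?_⟩
  intro h h' hh
  let H : Idx N e → ℕ := Sum.elim (fun u => h u.1) (fun u => h' u.1)
  have h1 := hCNT (Idx N e) Q hQ R H (by
    rintro (u | u)
    · exact (hh u.1).1
    · exact (hh u.1).2)
  have hbox : ∀ F : Idx N e → ℤ, (∀ u, |F u| ≤ H u) ↔
      ((∀ i u, |(famEquiv N e F).1 i u| ≤ h i) ∧ ∀ i u, |(famEquiv N e F).2 i u| ≤ h' i) := by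
    intro F
    constructor
    · intro hF
      exact ⟨fun i u => hF (Sum.inl ⟨i, u⟩), fun i u => hF (Sum.inr ⟨i, u⟩)⟩
    · rintro ⟨hF1, hF2⟩ (⟨i, u⟩ | ⟨i, u⟩)
      · exact hF1 i u
      · exact hF2 i u
  have hbc : {f : Fam N e | (∀ i u, |f.1 i u| ≤ h i) ∧ ∀ i u, |f.2 i u| ≤ h' i}.ncard =
      {F : Idx N e → ℤ | ∀ u, |F u| ≤ H u}.ncard := by
    rw [← Set.ncard_image_of_injective _ (famEquiv N e).injective]
    congr 1
    ext f
    constructor
    · intro hf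
      refine ⟨(famEquiv N e).symm f, ?_, (famEquiv N e).apply_symm_apply f⟩
      exact (hbox _).2 (by rw [(famEquiv N e).apply_symm_apply]; exact hf)
    · rintro ⟨F, hF, rfl⟩
      exact (hbox F).1 hF
  rw [hbc]
  refine h1.trans ?_
  have hfin := box_finite' N e h h'
  refine Nat.cast_le.2 (Set.ncard_le_ncard_of_injOn (famEquiv N e) ?_
    (famEquiv N e).injective.injOn (hfin.subset fun f hf => hf.1))
  rintro F ⟨hF1, hF2⟩
  have hF3 : ∀ c x, (q c : ℤ) ∣ F x - T c x := by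
    intro c x
    have h3 : (q c : ℤ) ∣ (Q : ℤ) := by
      rw [hQdef]
      exact_mod_cast Finset.dvd_prod_of_mem q (Finset.mem_univ c)
    have h4 := dvd_add (h3.trans (hF2 x)) (hR x c)
    rwa [sub_add_sub_cancel] at h4
  have hq1 : ∀ c, ((pr c : ℕ) : ℤ) ∣ (q c : ℤ) := by
    intro c
    show ((pr c : ℕ) : ℤ) ∣ ((pr c ^ K : ℕ) : ℤ)
    rw [Nat.cast_pow]
    exact dvd_pow_self _ hK0.ne'
  refine ⟨(hbox F).1 hF1, ?_, ?_⟩
  · obtain ⟨y, hy0, hyY, hyd, hyI⟩ := hDOM (Fin (N + 1)) Y n m hmn e he s (pr none) (hprime none)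
      (hpr3 none) (fun V hV y hy0 hy => hgood _ (hprime none) (hprD none) V hV y hy0 hy) hdim2
      (famEquiv N e F).1 (famEquiv N e F).2 (by
        intro i u
        have h4 := hF3 none (Sum.inl ⟨Fin.castLE hmn.le i, u⟩)
        have h5 : T none (Sum.inl ⟨Fin.castLE hmn.le i, u⟩) = pw _ (s i.succ) u := by
          show (if h : ((Fin.castLE hmn.le i : Fin n) : ℕ) < m then
            pw _ (s (Fin.succ ⟨(Fin.castLE hmn.le i : Fin n), h⟩)) u else 0) = _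
          have hi : ((Fin.castLE hmn.le i : Fin n) : ℕ) < m := i.2
          rw [dif_pos hi]
          rfl
        rw [h5] at h4
        exact (hq1 none).trans h4) (by
        intro i hi u
        have h4 := hF3 none (Sum.inl ⟨i, u⟩)
        have h5 : T none (Sum.inl ⟨i, u⟩) = 0 := by
          show (if h : (i : ℕ) < m then pw _ (s (Fin.succ ⟨i, h⟩)) u else 0) = _
          rw [dif_neg (by omega)]
        rw [h5, sub_zero] at h4
        exact (hq1 none).trans h4) (by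
        intro i u
        exact (hq1 none).trans (hF3 none (Sum.inr ⟨i, u⟩)))
    exact ⟨y, hy0, hyY, hyd, hyI⟩
  · intro r Z x hx y hy hyG hxy S hS
    refine criterionW hmn he hK Y s D
      (fun p hp hpD V hV y hy0 hy => hgood p hp hpD V hV y hy0 hy) a ha (famEquiv N e F).1
      (famEquiv N e F).2 ?_ r Z x hx y hy hyG hxy S hS
    intro lam
    refine ⟨pr (some lam), hprime _, hpr3 _, hprD _, congW_of_target hK0 s lam (a lam) _ _ ?_ ?_⟩
    · intro i u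
      have h4 := hF3 (some lam) (Sum.inl ⟨i, u⟩)
      have h5 : ((q (some lam) : ℕ) : ℤ) = ((pr (some lam) : ℕ) : ℤ) ^ K := by
        show ((pr (some lam) ^ K : ℕ) : ℤ) = _
        rw [Nat.cast_pow]
      rw [h5] at h4
      exact h4
    · intro i u
      have h4 := hF3 (some lam) (Sum.inr ⟨i, u⟩)
      have h5 : ((q (some lam) : ℕ) : ℤ) = ((pr (some lam) : ℕ) : ℤ) ^ K := by
        show ((pr (some lam) ^ K : ℕ) : ℤ) = _
        rw [Nat.cast_pow]
      rw [h5] at h4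
      exact h4

end Pool.Agent.W282.RW
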