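import Pool.Agent.W466.ZF

/-!
Project RW (helper282): Zilber-Pink for the periods of random Weierstrass families of elliptic
curves over a projective variety. Definitions and statements of the independent parts.
-/

open MvPolynomial

namespace Pool.Agent.W282.RW

open Pool.Agent.W466.ZP

variable {σ : Type} [Fintype σ] [DecidableEq σ]

/-- The value of `4 A³ + 27 B²` at `y`. -/
noncomputable def dsc {e : ℕ} (A : Sym σ (4 * e) → ℤ) (B : Sym σ (6 * e) → ℤ) (y : σ → ℂ) : ℂ :=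
  4 * ev A y ^ 3 + 27 * ev B y ^ 2

/-- The image has dimension `m`: under suitable congruences modulo one prime number there is a point
where the first `m` of the `j`-invariants are algebraically independent. `Y` is the affine cone over
the projective variety. -/
def S_DOM : Prop := ∀ (σ : Type) [Fintype σ] [DecidableEq σ] (Y : Set (σ → ℂ)) (n m : ℕ)
  (hmn : m < n) (e : Fin n → ℕ) (_ : ∀ i, 0 < e i) (s : Fin (m + 1) → σ → ℤ) (p : ℕ)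
  (_ : p.Prime) (_ : 3 < p)
  (_ : ∀ V : ValuationSubring ℂ, (p : ℂ) ∈ V.nonunits → ∀ y : σ → ℂ, y ≠ 0 → y ∈ Y →
    ∃ c : ℂ, c ≠ 0 ∧ (∀ j, (c • y) j ∈ V) ∧ c • y ∈ Y ∧
      ∃ b, V.valuation (∑ j, (s b j : ℂ) * (c • y) j) = 1)
  (_ : ∀ t : Fin m → σ → ℂ, ∃ y : σ → ℂ, y ≠ 0 ∧ y ∈ Y ∧ ∀ i, ∑ j, t i j * y j = 0)
  (A : ∀ i, Sym σ (4 * e i) → ℤ) (B : ∀ i, Sym σ (6 * e i) → ℤ)
  (_ : ∀ i : Fin m, ∀ u, (p : ℤ) ∣ A (Fin.castLE hmn.le i) u - pw _ (s i.succ) u)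
  (_ : ∀ i : Fin n, m ≤ (i : ℕ) → ∀ u, (p : ℤ) ∣ A i u)
  (_ : ∀ i, ∀ u, (p : ℤ) ∣ B i u - pw _ (s 0) u),
  ∃ y : σ → ℂ, y ≠ 0 ∧ y ∈ Y ∧ (∀ i, dsc (A i) (B i) y ≠ 0) ∧
    AlgebraicIndependent ℚ (fun i : Fin m => 6912 * ev (A (Fin.castLE hmn.le i)) y ^ 3 /
      dsc (A (Fin.castLE hmn.le i)) (B (Fin.castLE hmn.le i)) y)

/-- Counting of the vectors with bounded entries in a residue class. -/
def S_CNT : Prop := ∀ (E : Type) [Fintype E] (Q : ℕ) (_ : 0 < Q) (R : E → ℤ) (H : E → ℕ),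
  ∏ e, ((2 * H e + 1) / Q) ≤
    {F : E → ℤ | (∀ e, |F e| ≤ H e) ∧ ∀ e, (Q : ℤ) ∣ F e - R e}.ncard

end Pool.Agent.W282.RW
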